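import Pool.Agent.W786.Ls.Stm

/-! Project LS: the error of the smooth cut-off. -/

set_option autoImplicit false

open MeasureTheory Set Complex
open scoped ENNReal NNReal

namespace Pool.Agent.W240.LS

open Pool.Agent.W786.Ls

theorem th_cont {H : ℝ → ℂ} (hH : Integrable H) : Continuous (Th H) := by
  unfold Th
  refine continuous_of_dominated (bound := fun η => ‖H η‖) (fun v => ?_) (fun v => ?_) hH.norm ?_
  · refine hH.aestronglyMeasurable.mul (Continuous.aestronglyMeasurable ?_)
    fun_prop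
  · refine Filter.Eventually.of_forall fun η => ?_
    rw [norm_mul]
    have h1 : ‖cexp (2 * (Real.pi : ℂ) * I * ((η * v : ℝ) : ℂ))‖ = 1 := by
      rw [Complex.norm_exp, Real.exp_eq_one_iff]
      have : 2 * (Real.pi : ℂ) * I * ((η * v : ℝ) : ℂ) = ((2 * Real.pi * (η * v) : ℝ) : ℂ) * I := by
        push_cast
        ring
      rw [this, Complex.re_ofReal_mul]
      simp
    rw [h1, mul_one]
  · refine Filter.Eventually.of_forall fun η => ?_
    fun_prop

theorem ww_cont (A : ℝ) : Continuous (WW A) := by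
  unfold WW
  refine continuous_parametric_integral_of_continuous (f := fun v a : ℝ =>
    Real.exp (-Real.pi * (v - a) ^ 2)) ?_ isCompact_Icc
  fun_prop

theorem gau_int : Integrable (fun x : ℝ => Real.exp (-Real.pi * x ^ 2)) :=
  integrable_exp_neg_mul_sq Real.pi_pos

theorem gau_one (v : ℝ) : ∫ a : ℝ, Real.exp (-Real.pi * (v - a) ^ 2) = 1 := by
  rw [integral_sub_left_eq_self (fun x : ℝ => Real.exp (-Real.pi * x ^ 2)) volume v,
    integral_gaussian, div_self Real.pi_ne_zero, Real.sqrt_one]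

theorem gau_int' (v : ℝ) : Integrable (fun a : ℝ => Real.exp (-Real.pi * (v - a) ^ 2)) :=
  gau_int.comp_sub_left v

theorem ww_nonneg (A v : ℝ) : 0 ≤ WW A v := by
  unfold WW
  exact integral_nonneg fun a => (Real.exp_pos _).le

theorem ww_le_one (A v : ℝ) : WW A v ≤ 1 := by
  rw [← gau_one v]
  unfold WW
  exact setIntegral_le_integral (gau_int' v) (Filter.Eventually.of_forall fun a =>
    (Real.exp_pos _).le)

/-- the constant -/
noncomputable def K0 : ℝ := Real.exp 1 * Real.sqrt Real.pi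

theorem K0_nonneg : 0 ≤ K0 := by
  unfold K0
  positivity

theorem ww_tail {A v : ℝ} (hv : |v| ≤ 1) (hA : 1 ≤ A) :
    1 - WW A v ≤ K0 * Real.exp (-(A - 1)) := by
  have h1 : 1 - WW A v = ∫ a in (Icc (-A) A)ᶜ, Real.exp (-Real.pi * (v - a) ^ 2) := by
    rw [← gau_one v, ← integral_add_compl measurableSet_Icc (gau_int' v) (s := Icc (-A) A)]
    unfold WW
    ring
  have hi1 : Integrable (fun x : ℝ => Real.exp (-1 * x ^ 2)) := integrable_exp_neg_mul_sq one_pos
  have hi : Integrable (fun a : ℝ => Real.exp 1 * Real.exp (-(A - 1)) *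
      Real.exp (-1 * (v - a) ^ 2)) := (hi1.comp_sub_left v).const_mul _
  rw [h1]
  calc ∫ a in (Icc (-A) A)ᶜ, Real.exp (-Real.pi * (v - a) ^ 2)
      ≤ ∫ a in (Icc (-A) A)ᶜ, Real.exp 1 * Real.exp (-(A - 1)) * Real.exp (-1 * (v - a) ^ 2) := by
        refine setIntegral_mono_on (gau_int' v).integrableOn hi.integrableOn
          measurableSet_Icc.compl fun a ha => ?_
        rw [← Real.exp_add, ← Real.exp_add]
        refine Real.exp_le_exp.2 ?_
        have hb : A - 1 ≤ |v - a| := by
          have h2 : A < |a| := by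
            by_contra hc
            exact ha (abs_le.1 (not_lt.1 hc))
          have h3 : |a| ≤ |v| + |v - a| := by
            have := abs_sub_abs_le_abs_sub a v
            rw [abs_sub_comm a v] at this
            linarith
          linarith
        have h4 : (v - a) ^ 2 = |v - a| ^ 2 := (sq_abs _).symm
        rw [h4]
        have h5 := Real.pi_gt_three
        nlinarith [sq_nonneg (|v - a| - 1), sq_nonneg (|v - a|), abs_nonneg (v - a)]
    _ ≤ ∫ a : ℝ, Real.exp 1 * Real.exp (-(A - 1)) * Real.exp (-1 * (v - a) ^ 2) :=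
        setIntegral_le_integral hi (Filter.Eventually.of_forall fun a => by positivity)
    _ = K0 * Real.exp (-(A - 1)) := by
        rw [integral_const_mul,
          integral_sub_left_eq_self (fun x : ℝ => Real.exp (-1 * x ^ 2)) volume v,
          integral_gaussian, div_one]
        unfold K0
        ring

theorem prod_ge {ι : Type} (s : Finset ι) (w : ι → ℝ) (h0 : ∀ i, 0 ≤ w i) (h1 : ∀ i, w i ≤ 1) :
    1 - ∏ i ∈ s, w i ≤ ∑ i ∈ s, (1 - w i) := by
  classical
  induction s using Finset.induction_on with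
  | empty => simp
  | insert j s hj ih =>
    rw [Finset.prod_insert hj, Finset.sum_insert hj]
    have h2 : 0 ≤ ∏ i ∈ s, w i := Finset.prod_nonneg fun i _ => h0 i
    have h3 : ∏ i ∈ s, w i ≤ 1 := Finset.prod_le_one (fun i _ => h0 i) fun i _ => h1 i
    nlinarith [h0 j, h1 j]

theorem vol_cb (m : ℕ) : volume (CB m) = 2 ^ m := by
  unfold CB
  rw [volume_pi_pi]
  simp only [Real.volume_Ico, Finset.prod_const, Finset.card_univ, Fintype.card_fin]
  norm_num

/-- the layer -/
def Ly (m : ℕ) (ρ : ℝ) (j : Fin m) : Set (Fin m → ℝ) :=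
  Set.pi univ fun i => if i = j then Ico (-1 : ℝ) (-(1 - ρ)) ∪ Ioo (1 - ρ) 1 else Ico (-1 : ℝ) 1

theorem ly_meas (m : ℕ) (ρ : ℝ) (j : Fin m) : MeasurableSet (Ly m ρ j) := by
  refine MeasurableSet.univ_pi fun i => ?_
  split_ifs
  · exact measurableSet_Ico.union measurableSet_Ioo
  · exact measurableSet_Ico

theorem vol_ly (m : ℕ) {ρ : ℝ} (hρ : 0 < ρ) (j : Fin m) :
    volume (Ly m ρ j) ≤ 2 ^ m * ENNReal.ofReal ρ := by
  unfold Ly
  rw [volume_pi_pi, ← Finset.mul_prod_erase _ _ (Finset.mem_univ j)]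
  have h1 : ∏ x ∈ Finset.univ.erase j, volume (if x = j then Ico (-1 : ℝ) (-(1 - ρ)) ∪ Ioo (1 - ρ) 1
      else Ico (-1 : ℝ) 1) = 2 ^ (m - 1) := by
    rw [Finset.prod_congr rfl (g := fun _ => (2 : ℝ≥0∞))]
    · rw [Finset.prod_const, Finset.card_erase_of_mem (Finset.mem_univ j), Finset.card_univ,
        Fintype.card_fin]
    · intro x hx
      rw [if_neg (Finset.ne_of_mem_erase hx), Real.volume_Ico]
      norm_num
  have h2 : volume (if j = j then Ico (-1 : ℝ) (-(1 - ρ)) ∪ Ioo (1 - ρ) 1 else Ico (-1 : ℝ) 1) ≤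
      2 * ENNReal.ofReal ρ := by
    rw [if_pos rfl]
    refine (measure_union_le _ _).trans ?_
    rw [Real.volume_Ico, Real.volume_Ioo, two_mul]
    refine add_le_add (ENNReal.ofReal_le_ofReal (by linarith))
      (ENNReal.ofReal_le_ofReal (by linarith))
  rw [h1]
  have hm : m = (m - 1) + 1 := by
    have := j.isLt
    omega
  calc _ ≤ 2 * ENNReal.ofReal ρ * 2 ^ (m - 1) := by gcongr
    _ = 2 ^ ((m - 1) + 1) * ENNReal.ofReal ρ := by ring
    _ = 2 ^ m * ENNReal.ofReal ρ := by rw [← hm]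

theorem pt {m : ℕ} {H : ℝ → ℂ} {ρ A : ℝ} (hA : 1 ≤ A)
    (h1 : ∀ v : ℝ, |v| ≤ 1 - ρ → Th H v = 1) (hρ : 0 < ρ)
    (hcut : ∀ v : Fin m → ℝ, ‖cut H A v‖ ≤ 1) (v : Fin m → ℝ) (hv : v ∈ CB m) :
    ‖1 - cut H A v‖ₑ ^ 2 ≤ ENNReal.ofReal (m * K0 * Real.exp (-(A - 1))) +
      ∑ j, (Ly m ρ j).indicator (fun _ => (4 : ℝ≥0∞)) v := by
  by_cases hc : ∃ j, 1 - ρ < |v j|
  · obtain ⟨j, hj⟩ := hc
    have hm : v ∈ Ly m ρ j := by
      intro i _
      have hi := hv i (mem_univ i)
      by_cases hij : i = j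
      · subst hij
        simp only [if_true]
        rcases lt_abs.1 hj with h | h
        · exact Or.inr ⟨h, hi.2⟩
        · exact Or.inl ⟨hi.1, by linarith⟩
      · simp only [if_neg hij]
        exact hi
    have h2 : ‖1 - cut H A v‖ₑ ≤ 2 := by
      refine (enorm_sub_le).trans ?_
      have h3 : ‖cut H A v‖ₑ ≤ 1 := by
        rw [← ofReal_norm]
        exact ENNReal.ofReal_le_one.2 (hcut v)
      rw [enorm_one]
      calc (1 : ℝ≥0∞) + ‖cut H A v‖ₑ ≤ 1 + 1 := by gcongr
        _ = 2 := by norm_num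
    calc ‖1 - cut H A v‖ₑ ^ 2 ≤ 2 ^ 2 := by gcongr
      _ = (Ly m ρ j).indicator (fun _ => (4 : ℝ≥0∞)) v := by
        rw [indicator_of_mem hm]
        norm_num
      _ ≤ ∑ j, (Ly m ρ j).indicator (fun _ => (4 : ℝ≥0∞)) v :=
        Finset.single_le_sum (f := fun j => (Ly m ρ j).indicator (fun _ => (4 : ℝ≥0∞)) v)
          (fun _ _ => zero_le) (Finset.mem_univ j)
      _ ≤ _ := le_add_self
  · push Not at hc
    have h2 : cut H A v = ((∏ j, WW A (v j) : ℝ) : ℂ) := by
      unfold cut
      push_cast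
      refine Finset.prod_congr rfl fun j _ => ?_
      rw [h1 _ (hc j), one_mul]
    have h3 : 1 - cut H A v = ((1 - ∏ j, WW A (v j) : ℝ) : ℂ) := by
      rw [h2]
      push_cast
      rfl
    have h4 : 0 ≤ ∏ j, WW A (v j) := Finset.prod_nonneg fun j _ => ww_nonneg _ _
    have h5 : ∏ j, WW A (v j) ≤ 1 :=
      Finset.prod_le_one (fun j _ => ww_nonneg _ _) fun j _ => ww_le_one _ _
    have h6 : 1 - ∏ j, WW A (v j) ≤ m * K0 * Real.exp (-(A - 1)) := by
      refine (prod_ge Finset.univ (fun j => WW A (v j)) (fun j => ww_nonneg _ _)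
        fun j => ww_le_one _ _).trans ?_
      have h7 : ∑ j : Fin m, (1 - WW A (v j)) ≤ ∑ _j : Fin m, K0 * Real.exp (-(A - 1)) :=
        Finset.sum_le_sum fun j _ => ww_tail (by linarith [hc j]) hA
      refine h7.trans (le_of_eq ?_)
      rw [Finset.sum_const, Finset.card_univ, Fintype.card_fin, nsmul_eq_mul, mul_assoc]
    refine le_trans ?_ le_self_add
    rw [h3, ← ofReal_norm, Complex.norm_real, Real.norm_eq_abs,
      abs_of_nonneg (by linarith), ← ENNReal.ofReal_pow (by linarith)]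
    refine ENNReal.ofReal_le_ofReal ?_
    nlinarith

theorem lay : LayStm := by
  intro m
  refine ⟨4 * m * 2 ^ m + 2 ^ m * (m * K0).toNNReal, fun H ρ A hH hρ hρ2 hA h1 h2 h3 => ?_⟩
  have hcont : Continuous (fun v : Fin m → ℝ => cut H A v) := by
    unfold cut
    refine continuous_finsetProd _ fun j _ => ?_
    exact ((th_cont hH).comp (continuous_apply j)).mul
      (Complex.continuous_ofReal.comp ((ww_cont A).comp (continuous_apply j)))
  have hcut : ∀ v : Fin m → ℝ, ‖cut H A v‖ ≤ 1 := by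
    intro v
    unfold cut
    rw [norm_prod]
    refine Finset.prod_le_one (fun j _ => norm_nonneg _) fun j _ => ?_
    rw [norm_mul, Complex.norm_real, Real.norm_eq_abs, abs_of_nonneg (ww_nonneg _ _)]
    exact mul_le_one₀ (h3 _) (ww_nonneg _ _) (ww_le_one _ _)
  refine ⟨hcont.measurable, hcut, fun _ v hv => ?_, ?_⟩
  · have h4 : ∃ j, v j ∉ Ico (-1 : ℝ) 1 := by
      by_contra hc
      push Not at hc
      exact hv fun j _ => hc j
    obtain ⟨j, hj⟩ := h4
    unfold cut
    refine Finset.prod_eq_zero (Finset.mem_univ j) ?_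
    have h5 : 1 ≤ |v j| := by
      by_contra hc
      have := abs_lt.1 (not_le.1 hc)
      exact hj ⟨this.1.le, this.2⟩
    rw [h2 _ h5, zero_mul]
  · have hE : 0 ≤ Real.exp (-(A - 1)) := (Real.exp_pos _).le
    have hmK : 0 ≤ (m : ℝ) * K0 := mul_nonneg (Nat.cast_nonneg _) K0_nonneg
    calc ∫⁻ v in CB m, ‖1 - cut H A v‖ₑ ^ 2
        ≤ ∫⁻ v in CB m, (ENNReal.ofReal (m * K0 * Real.exp (-(A - 1))) +
          ∑ j, (Ly m ρ j).indicator (fun _ => (4 : ℝ≥0∞)) v) := by
          refine setLIntegral_mono' ?_ fun v hv => pt hA h1 hρ hcut v hv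
          exact MeasurableSet.univ_pi fun i => measurableSet_Ico
      _ = ENNReal.ofReal (m * K0 * Real.exp (-(A - 1))) * 2 ^ m +
          ∑ j : Fin m, ∫⁻ v in CB m, (Ly m ρ j).indicator (fun _ => (4 : ℝ≥0∞)) v := by
          rw [lintegral_add_left measurable_const, lintegral_const, Measure.restrict_apply_univ,
            vol_cb, lintegral_finsetSum _ fun j _ => measurable_const.indicator (ly_meas m ρ j)]
      _ ≤ ENNReal.ofReal (m * K0 * Real.exp (-(A - 1))) * 2 ^ m +
          ∑ _j : Fin m, 4 * (2 ^ m * ENNReal.ofReal ρ) := by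
          gcongr with j _
          refine (setLIntegral_le_lintegral _ _).trans ?_
          rw [lintegral_indicator (ly_meas m ρ j), lintegral_const, Measure.restrict_apply_univ]
          gcongr
          exact vol_ly m hρ j
      _ = (2 ^ m * ENNReal.ofReal (m * K0)) * ENNReal.ofReal (Real.exp (-(A - 1))) +
          (4 * m * 2 ^ m) * ENNReal.ofReal ρ := by
          rw [ENNReal.ofReal_mul hmK, Finset.sum_const, Finset.card_univ, Fintype.card_fin,
            nsmul_eq_mul]
          ring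
      _ ≤ ((4 * m * 2 ^ m + 2 ^ m * (m * K0).toNNReal : ℝ≥0) : ℝ≥0∞) *
          (ENNReal.ofReal ρ + ENNReal.ofReal (Real.exp (-(A - 1)))) := by
          rw [mul_add, add_comm]
          push_cast
          gcongr
          · exact le_self_add
          · exact le_add_self

end Pool.Agent.W240.LS
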